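import Pool.Agent.Q8.Loop.Mat

/-!
# Cubic commutator relations and factoring subalgebras of `so₃((λ))` (MP_1e3651_al, Q1)

If `E₁, E₂, E₃ ∈ so₃((λ))` satisfy `E_i - e_i/λ ∈ so₃[[λ]]` and the cubic relations (R) with
arbitrary constant matrices `A, B, C, D`, then the Lie subalgebra generated by the `E_i` is
factoring.
-/

noncomputable section

namespace Pool.Agent.Results.MP_1e3651_al.CubicFactoring

open Q8.Loop

/-- The basis `e₁ = E₁₂ - E₂₁`, `e₂ = E₁₃ - E₃₁`, `e₃ = E₂₃ - E₃₂` of `so₃` (indexed by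
`0, 1, 2`). -/
def e : Fin 3 → CMat (Fin 3) :=
  ![!![0, 1, 0; -1, 0, 0; 0, 0, 0], !![0, 0, 1; 0, 0, 0; -1, 0, 0], !![0, 0, 0; 0, 0, 1; 0, -1, 0]]

/-- `so₃((λ))`: the skew-symmetric `3 × 3` matrices over the field `ℂ((λ))`, as a complex Lie
algebra (bracket = commutator). -/
def soLoop : LieSubalgebra ℂ (LMat (Fin 3)) where
  carrier := {M | ∀ i j, M.entry j i = - M.entry i j}
  add_mem' := by
    intro M N hM hN i j
    rw [LMat.entry_add, LMat.entry_add, hM i j, hN i j, neg_add]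
  zero_mem' := by intro i j; simp
  smul_mem' := by
    intro r M hM i j
    rw [LMat.entry_smul, LMat.entry_smul, hM i j, smul_neg]
  lie_mem' := by
    intro M N hM hN i j
    rw [LMat.entry_lie, LMat.entry_lie, neg_sub]
    congr 1
    · apply Finset.sum_congr rfl
      intro k _
      rw [hM k j, hN i k]; ring
    · apply Finset.sum_congr rfl
      intro k _
      rw [hM i k, hN k j]; ring

/-- `so₃[[λ]]`: the elements of `so₃((λ))` without negative powers of `λ`. -/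
def taylor : Submodule ℂ (LMat (Fin 3)) where
  carrier := {M | M ∈ soLoop ∧ ∀ i j, ∀ k < 0, (M.entry i j).coeff k = 0}
  add_mem' := by
    rintro M N ⟨hM, hM'⟩ ⟨hN, hN'⟩
    exact ⟨add_mem hM hN, fun i j k hk => by
      rw [LMat.entry_add, HahnSeries.coeff_add, hM' i j k hk, hN' i j k hk, add_zero]⟩
  zero_mem' := ⟨zero_mem _, fun i j k hk => by simp⟩
  smul_mem' := by
    rintro r M ⟨hM, hM'⟩
    exact ⟨soLoop.smul_mem r hM, fun i j k hk => by
      rw [LMat.entry_smul, HahnSeries.coeff_smul, hM' i j k hk, smul_zero]⟩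

/-- The element `A/λ`. -/
def overLam (A : CMat (Fin 3)) : LMat (Fin 3) :=
  (fun i j => HahnSeries.single (-1) (A.entry i j) : Matrix (Fin 3) (Fin 3) (LaurentSeries ℂ))

/-- A Lie subalgebra `U ⊆ so₃((λ))` is factoring if `so₃((λ)) = so₃[[λ]] ⊕ U`. -/
def IsFactoring (U : LieSubalgebra ℂ (LMat (Fin 3))) : Prop :=
  taylor ⊓ U.toSubmodule = ⊥ ∧ taylor ⊔ U.toSubmodule = soLoop.toSubmodule

/-- `K = ([E₃,E₁], [E₁,E₂], [E₂,E₃])ᵀ`. -/
def vecK (E : Fin 3 → LMat (Fin 3)) : Fin 3 → LMat (Fin 3) := ![⁅E 2, E 0⁆, ⁅E 0, E 1⁆, ⁅E 1, E 2⁆]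

/-- `F = (E₂, E₃, E₁)ᵀ`. -/
def vecF (E : Fin 3 → LMat (Fin 3)) : Fin 3 → LMat (Fin 3) := ![E 1, E 2, E 0]

/-- The left-hand side of the first relation in (R). -/
def lhs₁ (E : Fin 3 → LMat (Fin 3)) : Fin 3 → LMat (Fin 3) :=
  ![⁅E 0, ⁅E 1, E 2⁆⁆, ⁅E 2, ⁅E 0, E 1⁆⁆, ⁅E 1, ⁅E 2, E 0⁆⁆]

/-- The left-hand side of the second relation in (R). -/
def lhs₂ (E : Fin 3 → LMat (Fin 3)) : Fin 3 → LMat (Fin 3) :=
  ![⁅E 2, ⁅E 1, E 2⁆⁆ + ⁅E 0, ⁅E 0, E 1⁆⁆, ⁅E 0, ⁅E 2, E 0⁆⁆ + ⁅E 1, ⁅E 1, E 2⁆⁆,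
    ⁅E 1, ⁅E 0, E 1⁆⁆ + ⁅E 2, ⁅E 2, E 0⁆⁆]

/-- The relations (R): `lhs₁ = A K + B F`, `lhs₂ = C K + D F` with constant matrices. -/
def RelR (E : Fin 3 → LMat (Fin 3)) : Prop :=
  ∃ A B C D : Matrix (Fin 3) (Fin 3) ℂ,
    (∀ i, lhs₁ E i = ∑ j, A i j • vecK E j + ∑ j, B i j • vecF E j) ∧
    (∀ i, lhs₂ E i = ∑ j, C i j • vecK E j + ∑ j, D i j • vecF E j)

lemma e_entry_skew (i j k : Fin 3) : (e k).entry j i = - (e k).entry i j := by
  fin_cases k <;> fin_cases i <;> fin_cases j <;> simp [e, CMat.entry]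

lemma e_rel (i : Fin 3) : ⁅e (i + 1), e (i + 2)⁆ = (-1 : ℂ) • e i := by
  ext a b
  rw [CMat.entry_lie, CMat.entry_smul]
  fin_cases i <;> fin_cases a <;> fin_cases b <;> simp [e, CMat.entry, Fin.sum_univ_three]

lemma e_linInd : LinearIndependent ℂ e := by
  rw [Fintype.linearIndependent_iff]
  intro g hg i
  have h : ∀ a b, (∑ i, g i • e i).entry a b = 0 := by
    intro a b; rw [hg]; rfl
  have h2 : ∀ a b, g 0 * (e 0).entry a b + g 1 * (e 1).entry a b + g 2 * (e 2).entry a b = 0 := by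
    intro a b
    have := h a b
    rw [Fin.sum_univ_three] at this
    exact this
  have h01 := h2 0 1
  have h02 := h2 0 2
  have h12 := h2 1 2
  simp [e, CMat.entry] at h01 h02 h12
  fin_cases i <;> assumption

lemma span_e {A : CMat (Fin 3)} (hA : ∀ i j, A.entry j i = - A.entry i j) :
    A ∈ Submodule.span ℂ (Set.range e) := by
  rw [Submodule.mem_span_range_iff_exists_fun]
  refine ⟨![A.entry 0 1, A.entry 0 2, A.entry 1 2], ?_⟩
  rw [Fin.sum_univ_three]
  have hd : ∀ i, A.entry i i = 0 := fun i => self_eq_neg.1 (hA i i)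
  have h10 := hA 0 1
  have h20 := hA 0 2
  have h21 := hA 1 2
  ext a b
  change (![A.entry 0 1, A.entry 0 2, A.entry 1 2] 0) * (e 0).entry a b +
    (![A.entry 0 1, A.entry 0 2, A.entry 1 2] 1) * (e 1).entry a b +
    (![A.entry 0 1, A.entry 0 2, A.entry 1 2] 2) * (e 2).entry a b = A.entry a b
  fin_cases a <;> fin_cases b <;> simp [e, CMat.entry] <;> first
    | exact (hd _).symm
    | exact h10.symm
    | exact h20.symm
    | exact h21.symm

/-- The data satisfy the hypotheses of the general theorem. -/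
lemma gen (E : Fin 3 → LMat (Fin 3)) (hE : ∀ i, E i - overLam (e i) ∈ taylor) :
    Gen (coeffM (n := Fin 3)) soLoop.toSubmodule e (-1) E := by
  have hov : ∀ i, overLam (e i) ∈ soLoop := by
    intro i a b
    change HahnSeries.single (-1) ((e i).entry b a) = - HahnSeries.single (-1) ((e i).entry a b)
    rw [e_entry_skew a b i, ← HahnSeries.single_neg]
  have hEe : ∀ i a b, (E i).entry a b = (E i - overLam (e i)).entry a b +
      HahnSeries.single (-1) ((e i).entry a b) := by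
    intro i a b
    rw [LMat.entry_sub]
    change _ = _ - HahnSeries.single (-1) ((e i).entry a b) + _
    rw [sub_add_cancel]
  refine ⟨isCoeff, fun X hX Y hY => soLoop.lie_mem hX hY, e_linInd, by norm_num, e_rel, ?_, ?_,
    ?_, ?_⟩
  · intro M hM k
    apply span_e
    intro i j
    rw [coeffM_entry, coeffM_entry, hM i j, HahnSeries.coeff_neg]
  · intro i
    have := add_mem (hE i).1 (hov i)
    rwa [sub_add_cancel] at this
  · intro i
    rw [ordGE_iff]
    intro a b k hk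
    rw [hEe i a b, HahnSeries.coeff_add, (hE i).2 a b k (by omega),
      HahnSeries.coeff_single_of_ne (by omega), add_zero]
  · intro i
    ext a b
    rw [coeffM_entry, hEe i a b, HahnSeries.coeff_add, (hE i).2 a b _ (by omega),
      HahnSeries.coeff_single_same, zero_add]

lemma r3 (E : Fin 3 → LMat (Fin 3)) (hR : RelR E) : R3 E := by
  obtain ⟨A, B, C, D, h1, h2⟩ := hR
  have hK : ∀ j, vecK E j ∈ Sp E 2 := by
    intro j
    fin_cases j
    · exact xs_mem E (a := 2) le_rfl 1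
    · exact xs_mem E (a := 2) le_rfl 2
    · exact xs_mem E (a := 2) le_rfl 0
  have hF : ∀ j, vecF E j ∈ Sp E 2 := by
    intro j
    fin_cases j
    · exact xs_mem E (a := 1) (by norm_num) 1
    · exact xs_mem E (a := 1) (by norm_num) 2
    · exact xs_mem E (a := 1) (by norm_num) 0
  have hs : ∀ (X Y : Matrix (Fin 3) (Fin 3) ℂ) (i : Fin 3),
      ∑ j, X i j • vecK E j + ∑ j, Y i j • vecF E j ∈ Sp E 2 := fun X Y i =>
    add_mem (Submodule.sum_mem _ fun j _ => Submodule.smul_mem _ _ (hK j))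
      (Submodule.sum_mem _ fun j _ => Submodule.smul_mem _ _ (hF j))
  have g1 : ∀ i, lhs₁ E i ∈ Sp E 2 := fun i => by rw [h1 i]; exact hs A B i
  have g2 : ∀ i, lhs₂ E i ∈ Sp E 2 := fun i => by rw [h2 i]; exact hs C D i
  constructor
  · intro i
    fin_cases i
    · exact g1 0
    · exact g1 2
    · exact g1 1
  · intro i
    fin_cases i
    · have := g2 1
      change ⁅E 0, ⁅E 2, E 0⁆⁆ + ⁅E 1, ⁅E 1, E 2⁆⁆ ∈ _ at this
      rw [add_comm] at this
      exact this
    · have := g2 2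
      change ⁅E 1, ⁅E 0, E 1⁆⁆ + ⁅E 2, ⁅E 2, E 0⁆⁆ ∈ _ at this
      rw [add_comm] at this
      exact this
    · have := g2 0
      change ⁅E 2, ⁅E 1, E 2⁆⁆ + ⁅E 0, ⁅E 0, E 1⁆⁆ ∈ _ at this
      rw [add_comm] at this
      exact this

end Pool.Agent.Results.MP_1e3651_al.CubicFactoring

open Pool.Agent.Results.MP_1e3651_al.CubicFactoring Q8.Loop in
/-- **Q1 of MP_1e3651_al, affirmative.** Whenever `E₁, E₂, E₃` with `E_i - e_i/λ ∈ so₃[[λ]]`
satisfy (R), the Lie subalgebra they generate is factoring. -/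
theorem Pool.Agent.Results.MP_1e3651_al.CubicFactoring.result
    (E : Fin 3 → LMat (Fin 3)) (hE : ∀ i, E i - overLam (e i) ∈ taylor) (hR : RelR E) :
    IsFactoring (LieSubalgebra.lieSpan ℂ (LMat (Fin 3)) (Set.range E)) := by
  obtain ⟨h1, h2⟩ := (gen E hE).factoring (r3 E hR)
  have ht : ordSub (coeffM (n := Fin 3)) soLoop.toSubmodule 0 = taylor := by
    ext M
    rw [mem_ordSub, ordGE_iff]
    rfl
  rw [ht] at h1 h2
  exact ⟨disjoint_iff.1 h1, h2⟩
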